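import Pool.Agent.N273.BR.Stm2
import Pool.Agent.N417.SM.Opp

/-!
# Project BR (helper273), leaf SR3: two iterated logarithm series (helper413)
-/

set_option autoImplicit false

namespace Pool.Agent.N413.BR

open Filter

theorem one_lt_log {x : ℝ} (hx : 3 ≤ x) : 1 < Real.log x := by
  rw [Real.lt_log_iff_exp_lt (by linarith)]
  exact lt_of_lt_of_le (lt_trans Real.exp_one_lt_d9 (by norm_num)) hx

theorem loglog_pos {x : ℝ} (hx : 3 ≤ x) : 0 < Real.log (Real.log x) :=
  Real.log_pos (one_lt_log hx)

theorem loglog_mono {x y : ℝ} (hx : 3 ≤ x) (hxy : x ≤ y) :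
    Real.log (Real.log x) ≤ Real.log (Real.log y) :=
  Real.log_le_log (by have := one_lt_log hx; linarith) (Real.log_le_log (by linarith) hxy)

theorem three_le (n : ℕ) : (3 : ℝ) ≤ (n : ℝ) + 3 := by
  have : (0 : ℝ) ≤ n := Nat.cast_nonneg n
  linarith

theorem conv (s : ℝ) (hs : 1 < s) : Summable (fun n : ℕ =>
    1 / (((n : ℝ) + 3) * Real.log ((n : ℝ) + 3) * Real.log (Real.log ((n : ℝ) + 3)) ^ s)) := by
  rw [← summable_condensed_iff_of_nonneg]
  · have h1 := (Pool.Agent.N417.SM.ser_conv hs).mul_left (2 ^ s / Real.log 2)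
    refine Summable.of_norm_bounded_eventually_nat h1 ?_
    filter_upwards [eventually_ge_atTop 3] with k hk
    have hk' : (3 : ℝ) ≤ k := by exact_mod_cast hk
    have hl2 : 0 < Real.log 2 := Real.log_pos (by norm_num)
    have hl2' : (0.6931471803 : ℝ) < Real.log 2 := Real.log_two_gt_d9
    set x : ℝ := ((2 ^ k : ℕ) : ℝ) + 3 with hx
    have hx3 : 3 ≤ x := three_le _
    have hx2 : (2 : ℝ) ^ k ≤ x := by
      rw [hx]
      push_cast
      linarith
    have h2k : (0 : ℝ) < 2 ^ k := by positivity
    have hlx : (k : ℝ) * Real.log 2 ≤ Real.log x := by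
      rw [← Real.log_pow]
      exact Real.log_le_log h2k hx2
    have hlk : 0 < Real.log ((k : ℝ) + 1) := Real.log_pos (by linarith)
    have hll : 1 / 2 * Real.log ((k : ℝ) + 1) ≤ Real.log (Real.log x) := by
      have e1 : 1 / 2 * Real.log ((k : ℝ) + 1) = Real.log (Real.sqrt ((k : ℝ) + 1)) := by
        rw [Real.log_sqrt (by linarith)]
        ring
      rw [e1]
      refine Real.log_le_log (Real.sqrt_pos.2 (by linarith)) (le_trans ?_ hlx)
      rw [Real.sqrt_le_left (by positivity)]
      have e2 : 0.69 * (k : ℝ) ≤ (k : ℝ) * Real.log 2 := by nlinarith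
      have e3 : (0.69 * (k : ℝ)) ^ 2 ≤ ((k : ℝ) * Real.log 2) ^ 2 :=
        pow_le_pow_left₀ (by positivity) e2 2
      have e4 : (k : ℝ) + 1 ≤ (0.69 * (k : ℝ)) ^ 2 := by nlinarith
      exact e4.trans e3
    have hden : (k : ℝ) * Real.log 2 * (1 / 2 * Real.log ((k : ℝ) + 1)) ^ s ≤
        Real.log x * Real.log (Real.log x) ^ s := by
      refine mul_le_mul hlx (Real.rpow_le_rpow (by positivity) hll (by linarith)) (by positivity)
        (by linarith [one_lt_log hx3])
    have hpos1 := one_lt_log hx3
    have hpos2 := loglog_pos hx3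
    have hx0 : 0 < x := by linarith
    have hf0 : (0 : ℝ) ≤ 2 ^ k * (1 / (x * Real.log x * Real.log (Real.log x) ^ s)) := by
      have := Real.rpow_pos_of_pos hpos2 s
      have : 0 < Real.log x := by linarith
      positivity
    change ‖(2 : ℝ) ^ k * (1 / (x * Real.log x * Real.log (Real.log x) ^ s))‖ ≤ _
    rw [Real.norm_of_nonneg hf0]
    have hp : 0 < (k : ℝ) * Real.log 2 * (1 / 2 * Real.log ((k : ℝ) + 1)) ^ s := by positivity
    have hq : 0 < Real.log x * Real.log (Real.log x) ^ s := lt_of_lt_of_le hp hden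
    calc (2 : ℝ) ^ k * (1 / (x * Real.log x * Real.log (Real.log x) ^ s))
        = (2 ^ k / x) * (1 / (Real.log x * Real.log (Real.log x) ^ s)) := by
          rw [mul_assoc x]
          field_simp
      _ ≤ 1 * (1 / (Real.log x * Real.log (Real.log x) ^ s)) := by
          refine mul_le_mul_of_nonneg_right ?_ (by positivity)
          rw [div_le_one hx0]
          exact hx2
      _ ≤ 1 / ((k : ℝ) * Real.log 2 * (1 / 2 * Real.log ((k : ℝ) + 1)) ^ s) := by
          rw [one_mul]
          exact one_div_le_one_div_of_le hp hden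
      _ = 2 ^ s / Real.log 2 * (1 / ((k : ℝ) * Real.log ((k : ℝ) + 1) ^ s)) := by
          rw [Real.mul_rpow (by norm_num) hlk.le, Real.div_rpow (by norm_num) (by norm_num),
            Real.one_rpow]
          field_simp
  · intro n
    have h1 := one_lt_log (three_le n)
    have h2 := loglog_pos (three_le n)
    have h3 := three_le n
    have : 0 < Real.log ((n : ℝ) + 3) := by linarith
    have : (0 : ℝ) < (n : ℝ) + 3 := by linarith
    positivity
  · intro m n _ hmn
    have hmn' : (m : ℝ) ≤ n := by exact_mod_cast hmn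
    have h1 := one_lt_log (three_le m)
    have h2 := loglog_pos (three_le m)
    have h3 := three_le m
    have h4 : Real.log ((m : ℝ) + 3) ≤ Real.log ((n : ℝ) + 3) :=
      Real.log_le_log (by linarith) (by linarith)
    have h5 := loglog_mono h3 (by linarith : (m : ℝ) + 3 ≤ (n : ℝ) + 3)
    have h6 := Real.rpow_pos_of_pos h2 s
    have h7 : Real.log (Real.log ((m : ℝ) + 3)) ^ s ≤ Real.log (Real.log ((n : ℝ) + 3)) ^ s :=
      Real.rpow_le_rpow h2.le h5 (by linarith)
    have h8 : 0 < Real.log ((m : ℝ) + 3) := by linarith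
    have h9 : (0 : ℝ) < (m : ℝ) + 3 := by linarith
    apply one_div_le_one_div_of_le (by positivity)
    refine mul_le_mul ?_ h7 h6.le (by have := h8.trans_le h4; nlinarith)
    exact mul_le_mul (by linarith) h4 h8.le (by linarith)

theorem dive : ¬ Summable (fun n : ℕ =>
    1 / (((n : ℝ) + 3) * Real.log ((n : ℝ) + 3) * Real.log (Real.log ((n : ℝ) + 3)))) := by
  rw [← summable_condensed_iff_of_nonneg]
  · intro h
    apply Pool.Agent.N417.SM.ser_div
    refine Summable.of_nonneg_of_le (fun k => ?_) (fun k => ?_) (h.mul_left 24)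
    · have : 0 ≤ Real.log ((k : ℝ) + 1) :=
        Real.log_nonneg (by have : (0 : ℝ) ≤ k := Nat.cast_nonneg k; linarith)
      positivity
    · set x : ℝ := ((2 ^ k : ℕ) : ℝ) + 3 with hx
      have hx3 : 3 ≤ x := three_le _
      have hpos1 := one_lt_log hx3
      have hpos2 := loglog_pos hx3
      have hx0 : 0 < x := by linarith
      have hpos3 : 0 < Real.log x := by linarith
      change 1 / ((k : ℝ) * Real.log ((k : ℝ) + 1)) ≤
        24 * (2 ^ k * (1 / (x * Real.log x * Real.log (Real.log x))))
      rcases Nat.eq_zero_or_pos k with hk | hk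
      · have : (k : ℝ) = 0 := by exact_mod_cast hk
        rw [this, zero_mul, div_zero]
        positivity
      · have hk' : (1 : ℝ) ≤ k := by exact_mod_cast hk
        have hl2 : 0 < Real.log 2 := Real.log_pos (by norm_num)
        have hl2' : Real.log 2 < 0.6931471808 := Real.log_two_lt_d9
        have h2k : (1 : ℝ) ≤ 2 ^ k := one_le_pow₀ (by norm_num)
        have hx4 : x ≤ 4 * 2 ^ k := by
          rw [hx]
          push_cast
          linarith
        have hlx : Real.log x ≤ ((k : ℝ) + 2) * Real.log 2 := by
          have e : ((k : ℝ) + 2) * Real.log 2 = Real.log ((2 : ℝ) ^ (k + 2)) := by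
            rw [Real.log_pow]
            push_cast
            ring
          rw [e]
          refine Real.log_le_log hx0 (hx4.trans (le_of_eq ?_))
          rw [pow_add]
          ring
        have hlx2 : Real.log x ≤ 3 * k := by nlinarith
        have hlk : 0 < Real.log ((k : ℝ) + 1) := Real.log_pos (by linarith)
        have hll : Real.log (Real.log x) ≤ 2 * Real.log ((k : ℝ) + 1) := by
          have e : 2 * Real.log ((k : ℝ) + 1) = Real.log (((k : ℝ) + 1) ^ 2) := by
            rw [Real.log_pow]
            push_cast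
            ring
          rw [e]
          refine Real.log_le_log hpos3 (hlx.trans ?_)
          nlinarith
        have hprod : x * Real.log x * Real.log (Real.log x) ≤
            4 * 2 ^ k * (3 * k) * (2 * Real.log ((k : ℝ) + 1)) := by
          refine mul_le_mul ?_ hll hpos2.le (by positivity)
          exact mul_le_mul hx4 hlx2 hpos3.le (by positivity)
        have h5 : 1 / (4 * 2 ^ k * (3 * (k : ℝ)) * (2 * Real.log ((k : ℝ) + 1))) ≤
            1 / (x * Real.log x * Real.log (Real.log x)) :=
          one_div_le_one_div_of_le (by positivity) hprod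
        calc 1 / ((k : ℝ) * Real.log ((k : ℝ) + 1)) =
              24 * (2 ^ k * (1 / (4 * 2 ^ k * (3 * (k : ℝ)) * (2 * Real.log ((k : ℝ) + 1))))) := by
              field_simp
              norm_num
          _ ≤ _ := by
              refine mul_le_mul_of_nonneg_left ?_ (by norm_num)
              exact mul_le_mul_of_nonneg_left h5 (by positivity)
  · intro n
    have h1 := one_lt_log (three_le n)
    have h2 := loglog_pos (three_le n)
    have h3 := three_le n
    have : 0 < Real.log ((n : ℝ) + 3) := by linarith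
    have : (0 : ℝ) < (n : ℝ) + 3 := by linarith
    positivity
  · intro m n _ hmn
    have hmn' : (m : ℝ) ≤ n := by exact_mod_cast hmn
    have h1 := one_lt_log (three_le m)
    have h2 := loglog_pos (three_le m)
    have h3 := three_le m
    have h4 : Real.log ((m : ℝ) + 3) ≤ Real.log ((n : ℝ) + 3) :=
      Real.log_le_log (by linarith) (by linarith)
    have h5 := loglog_mono h3 (by linarith : (m : ℝ) + 3 ≤ (n : ℝ) + 3)
    have h8 : 0 < Real.log ((m : ℝ) + 3) := by linarith
    have h9 : (0 : ℝ) < (m : ℝ) + 3 := by linarith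
    apply one_div_le_one_div_of_le (by positivity)
    refine mul_le_mul ?_ h5 h2.le (by have := h8.trans_le h4; nlinarith)
    exact mul_le_mul (by linarith) h4 h8.le (by linarith)

theorem sr3 : Pool.Agent.N273.BR.SR3 := ⟨conv, dive⟩

end Pool.Agent.N413.BR
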